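import Pool.Agent.Work.MP_2695c4_gt.Main

/-!
Coarse embeddability into Hilbert space does not pass from the target to the source of a
uniformly finite-to-one coarse map between uniformly locally finite metric spaces.  The target
even embeds isometrically.
-/

namespace Pool.Agent.Results.MP_2695c4_gt.Counterexample

open Pool.Agent.Work.MP_2695c4_gt

universe u

theorem result :
    ∃ (X Y : Type) (_ : MetricSpace X) (_ : MetricSpace Y) (f : X → Y),
      UnifLocFinite X ∧ UnifLocFinite Y ∧ IsCoarseMap f ∧ UnifFiniteToOne f ∧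
        (∃ (H : Type) (_ : NormedAddCommGroup H) (_ : InnerProductSpace ℝ H) (_ : CompleteSpace H)
          (g : Y → H), Isometry g) ∧
        CoarselyEmbedsInHilbert.{0} Y ∧ ¬ CoarselyEmbedsInHilbert.{u} X :=
  ⟨XT, YT, inferInstance, inferInstance, proj, ulf_X, ulf_Y, coarse_proj, ⟨2, fibre_proj⟩,
    ⟨lp (fun _ : J => ℝ) 2, inferInstance, inferInstance, inferInstance, Ψ,
      Isometry.of_dist_eq fun _ _ => rfl⟩, ce_Y, not_ce_X⟩

end Pool.Agent.Results.MP_2695c4_gt.Counterexample
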