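import Pool.Agent.Work.MP_2695c4_gt.Hedge.Level
import Pool.Agent.Work.MP_2695c4_gt.Hedge.Pull

/-!
The targets for which coarse embeddability into Hilbert space holds for every source of a
uniformly finite-to-one coarse map are exactly the spaces with property A.
-/

namespace Pool.Agent.Results.MP_2695c4_gt.PropertyAIff

open Pool.Agent.Work.MP_2695c4_gt Pool.Agent.Work.MP_2695c4_gt.Hedge

universe u

theorem result (Y : Type) [MetricSpace Y] (hY : UnifLocFinite Y) :
    List.TFAE [PropertyA Y,
      ∀ (X : Type) [MetricSpace X] (f : X → Y), UnifLocFinite X → IsCoarseMap f →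
        UnifFiniteToOne f → CoarselyEmbedsMono X,
      ∀ (X : Type) [MetricSpace X] (f : X → Y), UnifLocFinite X → IsCoarseMap f →
        Function.Injective f → CoarselyEmbedsInHilbert.{u} X] := by
  tfae_have 1 → 2 := fun h X _ f _ hf hK => embeds hY h hf hK
  tfae_have 2 → 3 := fun h X _ f hX hf hi => by
    obtain ⟨H, _, _, _, g, ρm, ρp, -, -, h1, h2⟩ := h X f hX hf
      ⟨1, fun y => Set.encard_le_one_iff_subsingleton.2 (Set.subsingleton_singleton.preimage hi)⟩
    refine ⟨lp (fun _ : PUnit.{u + 1} => H) 2, _, inferInstance, inferInstance,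
      fun x => lp.single 2 PUnit.unit (g x), ρm, ρp, h1, fun x y => ?_⟩
    rw [← lp.single_sub, show ‖lp.single (E := fun _ : PUnit.{u + 1} => H) 2 PUnit.unit
      (g x - g y)‖₊ = ‖g x - g y‖₊ from NNReal.eq (lp.norm_single two_pos _ _)]
    exact h2 x y
  tfae_have 3 → 1 := fun h => by_contra fun e => by
    obtain ⟨X, _, f, h1, h2, h3, h4⟩ := exists_bad.{u} hY e
    exact h4 (h X f h1 h2 h3)
  tfae_finish

end Pool.Agent.Results.MP_2695c4_gt.PropertyAIff
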